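import Pool.Agent.Helper89.KS.Goals

/-!
# Project KS, packet KS-FLB: the filling of the model
-/

namespace Pool.Agent.Helper88.KS

open Finset MeasureTheory Pool.Agent.Helper89.GP Pool.Agent.Helper89.KS

/-- Packet KS-FLB. -/
theorem flb (h1 : MufStmt) (h2 : FlaStmt) : FlbStmt := by
  intro G hG hc ε hε
  obtain ⟨S0, hS0⟩ := h2 G hG hc ε hε
  refine ⟨S0, fun S hS n R x hR hx => ?_⟩
  obtain ⟨-, -, h3, -⟩ := h1 n R hR
  have hmeas : MeasurableSet {v : Fin n → ℝ |
      ε < |(∑ p, G (nm x S v p)) / S - ∫ y, G y|} := by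
    refine measurableSet_lt measurable_const ?_
    refine Measurable.abs ?_
    refine Measurable.sub_const ?_ _
    refine Measurable.div_const ?_ _
    refine Finset.measurable_sum _ fun p _ => ?_
    refine hG.measurable.comp ?_
    unfold nm
    fun_prop
  rw [h3 _ hmeas]
  have hcard : (0 : ℝ) < (LX R).card := by exact_mod_cast hR.card_pos
  unfold Ex
  rw [div_le_iff₀ hcard]
  have h4 : ∀ σ ∈ LX R, (En n).real {e | cf σ e ∈ {v : Fin n → ℝ |
      ε < |(∑ p, G (nm x S v p)) / S - ∫ y, G y|}} ≤ ε := by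
    intro σ hσ
    obtain ⟨h5, h6⟩ := hx σ hσ
    have h7 := hS0 S hS n (σ x) h5 h6
    have h8 : {e : Fin n → ℝ | cf σ e ∈ {v : Fin n → ℝ |
        ε < |(∑ p, G (nm x S v p)) / S - ∫ y, G y|}} =
        {e | ε < |(∑ j, G ((ps e j - ps e (σ x)) / S)) / S - ∫ y, G y|} := by
      ext e
      have h9 : ∑ p, G (nm x S (cf σ e) p) = ∑ j, G ((ps e j - ps e (σ x)) / S) :=
        Equiv.sum_comp σ (fun j => G ((ps e j - ps e (σ x)) / S))
      simp only [Set.mem_setOf_eq, h9]
    rw [h8]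
    exact h7
  refine (Finset.sum_le_sum h4).trans ?_
  rw [Finset.sum_const, nsmul_eq_mul, mul_comm]

end Pool.Agent.Helper88.KS
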